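import Pool.Agent.KGW.Stmts
import Pool.Agent.KG.Stmts

/-!
# Squad KGW: the inequality WIN with a constant which does not depend on the bound of the
derivatives of the partners, and the block statement `KG.WinStmt` from it

(The row `KGW.WinStmt` has the constant `|v1| + 2 |v2| B` where `B` also bounds `deriv (y N)`, while
in `KG.WinStmt` the constant is chosen before that bound.)  The proof of `win2` is the proof of
the row WIN (helper88) with a second bound.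
-/

namespace Pool.Agent.KGW.H11

open MeasureTheory Complex Set Filter
open scoped ContDiff Topology Real
open Pool.Agent.KG

theorem smc_cont {f : ℝ → ℂ} (h : SmC f) : Continuous f := h.1.continuous

theorem smc_dcont {f : ℝ → ℂ} (h : SmC f) : Continuous (deriv f) :=
  (h.1.of_le (by simp : (1 : WithTop ℕ∞) ≤ ∞)).continuous_deriv le_rfl

/-- the quadratic form splits -/
theorem ry_split {q : ℝ → ℝ} (hq : Continuous q) (b : ℝ) {u : ℝ → ℂ} (hu : SmC u) :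
    Ry q b u = (∫ s in (0 : ℝ)..(2 * π), ‖deriv u s‖ ^ 2) +
      2 * b * (∫ s in (0 : ℝ)..(2 * π), ((starRingEnd ℂ) (u s) * deriv u s).im) +
      ∫ s in (0 : ℝ)..(2 * π), q s * ‖u s‖ ^ 2 := by
  have h1 := smc_cont hu
  have h2 := smc_dcont hu
  have c1 : Continuous fun s => ‖deriv u s‖ ^ 2 := by fun_prop
  have c2 : Continuous fun s => ((starRingEnd ℂ) (u s) * deriv u s).im :=
    Complex.continuous_im.comp ((Complex.continuous_conj.comp h1).mul h2)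
  have c3 : Continuous fun s => q s * ‖u s‖ ^ 2 := by fun_prop
  have c2' : Continuous fun s => 2 * b * ((starRingEnd ℂ) (u s) * deriv u s).im :=
    continuous_const.mul c2
  have c12 : Continuous fun s => ‖deriv u s‖ ^ 2 +
    2 * b * ((starRingEnd ℂ) (u s) * deriv u s).im := c1.add c2'
  unfold Ry
  rw [intervalIntegral.integral_add (c12.intervalIntegrable _ _)
    (c3.intervalIntegrable _ _), intervalIntegral.integral_add (c1.intervalIntegrable _ _)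
    (c2'.intervalIntegrable _ _), intervalIntegral.integral_const_mul]

/-- the weight splits -/
theorem quad_split {y : ℝ → ℝ} (hy : Continuous y) {u : ℝ → ℂ} (hu : Continuous u)
    (v0 v1 v2 : ℝ) :
    ∫ s in (0 : ℝ)..(2 * π), (v0 + v1 * y s + v2 * y s ^ 2) * ‖u s‖ ^ 2 =
      v0 * (∫ s in (0 : ℝ)..(2 * π), ‖u s‖ ^ 2) +
      v1 * (∫ s in (0 : ℝ)..(2 * π), y s * ‖u s‖ ^ 2) +
      v2 * ∫ s in (0 : ℝ)..(2 * π), y s ^ 2 * ‖u s‖ ^ 2 := by
  have c1 : Continuous fun s => ‖u s‖ ^ 2 := by fun_prop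
  have c2 : Continuous fun s => y s * ‖u s‖ ^ 2 := by fun_prop
  have c3 : Continuous fun s => y s ^ 2 * ‖u s‖ ^ 2 := by fun_prop
  have e : ∀ s, (v0 + v1 * y s + v2 * y s ^ 2) * ‖u s‖ ^ 2 =
      (v0 * ‖u s‖ ^ 2 + v1 * (y s * ‖u s‖ ^ 2)) + v2 * (y s ^ 2 * ‖u s‖ ^ 2) := fun s => by ring
  have d1 : Continuous fun s => v0 * ‖u s‖ ^ 2 := by fun_prop
  have d2 : Continuous fun s => v1 * (y s * ‖u s‖ ^ 2) := by fun_prop
  have d3 : Continuous fun s => v2 * (y s ^ 2 * ‖u s‖ ^ 2) := by fun_prop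
  have d12 : Continuous fun s => v0 * ‖u s‖ ^ 2 + v1 * (y s * ‖u s‖ ^ 2) := by fun_prop
  simp only [e]
  rw [intervalIntegral.integral_add (d12.intervalIntegrable _ _)
    (d3.intervalIntegrable _ _), intervalIntegral.integral_add
    (d1.intervalIntegrable _ _) (d2.intervalIntegrable _ _), intervalIntegral.integral_const_mul,
    intervalIntegral.integral_const_mul, intervalIntegral.integral_const_mul]

/-- WIN with a separate bound `B1` of the partners in the constant -/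
theorem win2 (hLam : LamStmt) (hTrl : TrlStmt) (P : ℕ → MvPolynomial ℕ ℝ) (α β γ : ℕ → ℝ)
    (n N0 : ℕ) (k0 y0 : ℝ → ℝ) (χ : ℝ → ℂ) (k y : ℕ → ℝ → ℝ) (B B1 ρ : ℝ)
    (hH : Hyp P α β γ n N0 k0 χ k y B) (hy0 : Sm y0) (hB : ∀ s, |y0 s| ≤ B1)
    (hB1 : ∀ N, N0 ≤ N → ∀ s, |y N s| ≤ B1)
    (hρ : ∀ N, N0 ≤ N → ∀ s, |y N s - y0 s| ≤ ρ) (v0 v1 v2 b : ℝ) :
    lam (fun s => v0 + v1 * y0 s + v2 * y0 s ^ 2) b * (∫ s in (0 : ℝ)..(2 * π), ‖χ s‖ ^ 2) ≤
      Ry (fun s => v0 + v1 * k0 s + v2 * k0 s ^ 2) b χ +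
        (|v1| + 2 * |v2| * B1) * ρ * ∫ s in (0 : ℝ)..(2 * π), ‖χ s‖ ^ 2 := by
  obtain ⟨F, hF⟩ : ∃ F : Ultrafilter ℕ, (F : Filter ℕ) ≤ atTop :=
    ⟨hyperfilter ℕ, Nat.hyperfilter_le_atTop⟩
  obtain ⟨a, ha, l1, l2, l3, l4, l5⟩ := hTrl P α β γ n N0 k0 χ k y B hH F hF
  have hρ0 : 0 ≤ ρ := le_trans (abs_nonneg _) (hρ N0 le_rfl 0)
  obtain ⟨κ, hκ⟩ : ∃ κ : ℝ, κ = (|v1| + 2 * |v2| * B1) * ρ := ⟨_, rfl⟩
  have hq : Continuous fun s => v0 + v1 * y0 s + v2 * y0 s ^ 2 := by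
    have := hy0.wcont
    fun_prop
  have hqb : ∃ Q, ∀ s, |v0 + v1 * y0 s + v2 * y0 s ^ 2| ≤ Q :=
    (((Sm.wconst v0).wadd (hy0.wsmul v1)).wadd ((hy0.wpow 2).wsmul v2)).wbdd
  have key : ∀ N, N0 ≤ N → lam (fun s => v0 + v1 * y0 s + v2 * y0 s ^ 2) b *
      (∫ s in (0 : ℝ)..(2 * π), ‖a N s‖ ^ 2) ≤
      (∫ s in (0 : ℝ)..(2 * π), ‖deriv (a N) s‖ ^ 2) +
      2 * b * (∫ s in (0 : ℝ)..(2 * π), ((starRingEnd ℂ) (a N s) * deriv (a N) s).im) +
      ((v0 + κ) * (∫ s in (0 : ℝ)..(2 * π), ‖a N s‖ ^ 2) +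
        v1 * (∫ s in (0 : ℝ)..(2 * π), y N s * ‖a N s‖ ^ 2) +
        v2 * ∫ s in (0 : ℝ)..(2 * π), y N s ^ 2 * ‖a N s‖ ^ 2) := by
    intro N hN
    have hyN := (hH.part.sm N hN).wcont
    have haN := smc_cont (ha N hN)
    have h1 := hLam _ b (a N) hq hqb (ha N hN)
    rw [ry_split hq b (ha N hN)] at h1
    have h2 : ∫ s in (0 : ℝ)..(2 * π), (v0 + v1 * y0 s + v2 * y0 s ^ 2) * ‖a N s‖ ^ 2 ≤
        ∫ s in (0 : ℝ)..(2 * π), ((v0 + κ) + v1 * y N s + v2 * y N s ^ 2) * ‖a N s‖ ^ 2 := by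
      apply int_mono (by fun_prop) (by fun_prop)
      intro s
      apply mul_le_mul_of_nonneg_right _ (sq_nonneg _)
      have h3 := hρ N hN s
      have h4 := hB1 N hN s
      have h5 := hB s
      have e1 : v1 * (y0 s - y N s) ≤ |v1| * ρ := by
        calc v1 * (y0 s - y N s) ≤ |v1 * (y0 s - y N s)| := le_abs_self _
          _ = |v1| * |y N s - y0 s| := by rw [abs_mul, abs_sub_comm]
          _ ≤ _ := mul_le_mul_of_nonneg_left h3 (abs_nonneg _)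
      have e2 : v2 * ((y0 s - y N s) * (y0 s + y N s)) ≤ |v2| * (ρ * (2 * B1)) := by
        calc v2 * ((y0 s - y N s) * (y0 s + y N s)) ≤
            |v2 * ((y0 s - y N s) * (y0 s + y N s))| := le_abs_self _
          _ = |v2| * (|y N s - y0 s| * |y0 s + y N s|) := by
            rw [abs_mul, abs_mul, abs_sub_comm]
          _ ≤ _ := by
            apply mul_le_mul_of_nonneg_left _ (abs_nonneg _)
            apply mul_le_mul h3 _ (abs_nonneg _) hρ0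
            calc |y0 s + y N s| ≤ |y0 s| + |y N s| := abs_add_le _ _
              _ ≤ 2 * B1 := by linarith
      rw [hκ]
      nlinarith [e1, e2]
    rw [quad_split hyN haN] at h2
    linarith
  have hL : Tendsto (fun N : ℕ => lam (fun s => v0 + v1 * y0 s + v2 * y0 s ^ 2) b *
      (∫ s in (0 : ℝ)..(2 * π), ‖a N s‖ ^ 2)) F
      (𝓝 (lam (fun s => v0 + v1 * y0 s + v2 * y0 s ^ 2) b *
        ∫ s in (0 : ℝ)..(2 * π), ‖χ s‖ ^ 2)) := l1.const_mul _
  have hR := (l3.add (l2.const_mul (2 * b))).add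
    (((l1.const_mul (v0 + κ)).add (l4.const_mul v1)).add (l5.const_mul v2))
  have hfin := le_of_tendsto_of_tendsto hL hR
    (by filter_upwards [hF (eventually_ge_atTop N0)] with N hN using key N hN)
  have hk0 := hH.code.sm0.wcont
  have hχ := hH.code.smχ
  rw [ry_split (by fun_prop) b hχ, quad_split hk0 (smc_cont hχ), ← hκ]
  linarith

/-- the block statement WIN of `KG/Stmts.lean` -/
theorem winG (hLam : LamStmt) (hTrl : TrlStmt) (P : ℕ → MvPolynomial ℕ ℝ) (hP : Good P) :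
    KG.WinStmt P := by
  obtain ⟨_, α, β, γ, hnf, hco⟩ := hP
  intro k₀ k₀' hk hk' v₀ v₁ v₂ b
  obtain ⟨B1, hB1⟩ := hk'.wbdd
  refine ⟨|v₁| + 2 * |v₂| * (B1 + 1), ?_⟩
  intro r hr hr1 χ hχ n hn k k' ρ B N₀ h1 h2
  have hm : ∀ N, max N₀ 1 ≤ N → N₀ ≤ N ∧ 1 ≤ N := fun N hN =>
    ⟨le_trans (le_max_left _ _) hN, le_trans (le_max_right _ _) hN⟩
  have hb1 : ∀ N, max N₀ 1 ≤ N → ∀ s, |k' N s| ≤ B1 + 1 := by
    intro N hN s
    obtain ⟨_, _, _, _, _, h3, _⟩ := h1 N (hm N hN).1 (hm N hN).2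
    have h4 := h3 s
    have h5 := hB1 s
    have h6 : |k' N s| ≤ |k' N s - k₀' s| + |k₀' s| := by
      have := abs_add_le (k' N s - k₀' s) (k₀' s)
      simpa using this
    linarith
  have hcode : Code n (max N₀ 1) k₀ χ k := by
    refine ⟨le_max_right _ _, hk, hχ, fun N hN => (h1 N (hm N hN).1 (hm N hN).2).1, ρ,
      fun N hN => (h1 N (hm N hN).1 (hm N hN).2).2.2.1, ?_, ?_⟩
    · intro N hN s
      obtain ⟨_, _, _, h3, _⟩ := h1 N (hm N hN).1 (hm N hN).2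
      rw [h3 s]
      unfold osc
      push_cast
      rw [div_eq_inv_mul]
    · intro j
      obtain ⟨D, hD⟩ := h2 j
      refine ⟨|D|, ?_⟩
      intro N hN s
      have h3 := hD N (hm N hN).1 (hm N hN).2 s
      have hN1 : (1 : ℝ) ≤ N := by exact_mod_cast (hm N hN).2
      have hN0 : (0 : ℝ) < N := by linarith
      have h4 : ((N : ℝ) ^ (2 * n))⁻¹ ≤ (N : ℝ)⁻¹ := by
        apply inv_anti₀ hN0
        calc (N : ℝ) = (N : ℝ) ^ 1 := (pow_one _).symm
          _ ≤ (N : ℝ) ^ (2 * n) := pow_le_pow_right₀ hN1 (by omega)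
      have h5 : 0 ≤ ((N : ℝ) ^ (2 * n))⁻¹ := by positivity
      calc |iteratedDeriv j (ρ N) s| ≤ D * ((N : ℝ) ^ (2 * n))⁻¹ := h3
        _ ≤ |D| * ((N : ℝ) ^ (2 * n))⁻¹ := mul_le_mul_of_nonneg_right (le_abs_self _) h5
        _ ≤ |D| * (N : ℝ)⁻¹ := mul_le_mul_of_nonneg_left h4 (abs_nonneg _)
        _ = |D| / N := by rw [div_eq_mul_inv]
  have hpart : Part P (max N₀ 1) k k' (max B (B1 + 1)) := by
    refine ⟨fun N hN => (h1 N (hm N hN).1 (hm N hN).2).2.1, ?_, ?_⟩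
    · intro N hN s
      obtain ⟨_, _, _, _, _, _, h4⟩ := h1 N (hm N hN).1 (hm N hN).2
      exact ⟨le_trans (hb1 N hN s) (le_max_right _ _), le_trans (h4 s) (le_max_left _ _)⟩
    · intro N hN w hw
      obtain ⟨_, _, _, _, h5, _⟩ := h1 N (hm N hN).1 (hm N hN).2
      exact h5 w hw
  have hH : Hyp P α β γ n (max N₀ 1) k₀ χ k k' (max B (B1 + 1)) := ⟨hnf, hco, hn, hcode, hpart⟩
  have := win2 hLam hTrl P α β γ n (max N₀ 1) k₀ k₀' χ k k' (max B (B1 + 1)) (B1 + 1) r hH hk'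
    (fun s => le_trans (hB1 s) (by linarith)) hb1
    (fun N hN s => by
      obtain ⟨_, _, _, _, _, h3, _⟩ := h1 N (hm N hN).1 (hm N hN).2
      exact h3 s) v₀ v₁ v₂ b
  exact this

end Pool.Agent.KGW.H11
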